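import Mathlib

namespace Pool.Agent.Results.MP_2d6919_lc.MeasureFromSubalgebras

open Set

universe u

variable {B : Type u} [CompleteBooleanAlgebra B]

/-- `A` is a complete subalgebra of the complete Boolean algebra `B`: it is closed under
complements and under all suprema and infima taken in `B` (so it contains `⊥` and `⊤`, the
supremum and infimum of the empty set, and is closed under binary joins and meets). -/
structure IsCompleteSubalgebra (A : Set B) : Prop where
  compl_mem : ∀ a ∈ A, aᶜ ∈ A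
  sSup_mem : ∀ S : Set B, S ⊆ A → sSup S ∈ A
  sInf_mem : ∀ S : Set B, S ⊆ A → sInf S ∈ A

/-- `A` is a countably generated complete subalgebra of `B`: it is the smallest complete
subalgebra containing some countable set `C`. -/
def IsCountablyGenerated (A : Set B) : Prop :=
  IsCompleteSubalgebra A ∧ ∃ C : Set B, C.Countable ∧ C ⊆ A ∧
    ∀ A' : Set B, IsCompleteSubalgebra A' → C ⊆ A' → A ⊆ A'

/-- `μ` is a (strictly positive, finite, countably additive) measure on the complete subalgebra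
`A`. -/
structure IsMeasureOn (A : Set B) (μ : B → ℝ) : Prop where
  nonneg : ∀ a ∈ A, 0 ≤ μ a
  pos : ∀ a ∈ A, a ≠ ⊥ → 0 < μ a
  countably_additive : ∀ a : ℕ → B, (∀ n, a n ∈ A) → Pairwise (fun i j => Disjoint (a i) (a j)) →
    HasSum (fun n => μ (a n)) (μ (⨆ n, a n))

/-- `m` is a continuous outer measure on `B`. -/
structure IsContinuousOuterMeasure (m : B → ℝ) : Prop where
  nonneg : ∀ a, 0 ≤ m a
  bot : m ⊥ = 0
  pos : ∀ a, a ≠ ⊥ → 0 < m a
  mono : ∀ a b, a ≤ b → m a ≤ m b
  subadd : ∀ a b, m (a ⊔ b) ≤ m a + m b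
  continuous : ∀ a : ℕ → B, Antitone a → ⨅ n, a n = ⊥ →
    Filter.Tendsto (fun n => m (a n)) Filter.atTop (nhds 0)

/-! ### Complete subalgebras -/

namespace IsCompleteSubalgebra

variable {A : Set B} (hA : IsCompleteSubalgebra A)
include hA

theorem bot_mem : (⊥ : B) ∈ A := by
  have := hA.sSup_mem ∅ (empty_subset _)
  rwa [sSup_empty] at this

theorem top_mem : (⊤ : B) ∈ A := by
  have := hA.sInf_mem ∅ (empty_subset _)
  rwa [sInf_empty] at this

theorem sup_mem {a b : B} (ha : a ∈ A) (hb : b ∈ A) : a ⊔ b ∈ A := by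
  have := hA.sSup_mem {a, b} (by
    rintro x (rfl | rfl)
    · exact ha
    · exact hb)
  rwa [sSup_pair] at this

theorem inf_mem {a b : B} (ha : a ∈ A) (hb : b ∈ A) : a ⊓ b ∈ A := by
  have := hA.sInf_mem {a, b} (by
    rintro x (rfl | rfl)
    · exact ha
    · exact hb)
  rwa [sInf_pair] at this

theorem sdiff_mem {a b : B} (ha : a ∈ A) (hb : b ∈ A) : a \ b ∈ A := by
  rw [_root_.sdiff_eq]
  exact hA.inf_mem ha (hA.compl_mem b hb)

theorem iSup_mem {ι : Sort*} {a : ι → B} (ha : ∀ i, a i ∈ A) : (⨆ i, a i) ∈ A :=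
  hA.sSup_mem _ (by rintro _ ⟨i, rfl⟩; exact ha i)

theorem iInf_mem {ι : Sort*} {a : ι → B} (ha : ∀ i, a i ∈ A) : (⨅ i, a i) ∈ A :=
  hA.sInf_mem _ (by rintro _ ⟨i, rfl⟩; exact ha i)

end IsCompleteSubalgebra

theorem isCompleteSubalgebra_sInter (𝒜 : Set (Set B)) (h : ∀ A ∈ 𝒜, IsCompleteSubalgebra A) :
    IsCompleteSubalgebra (⋂₀ 𝒜) where
  compl_mem a ha A hA := (h A hA).compl_mem a (ha A hA)
  sSup_mem S hS A hA := (h A hA).sSup_mem S (fun x hx => hS hx A hA)
  sInf_mem S hS A hA := (h A hA).sInf_mem S (fun x hx => hS hx A hA)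

theorem exists_generated (C : Set B) (hC : C.Countable) :
    ∃ A : Set B, IsCountablyGenerated A ∧ C ⊆ A := by
  refine ⟨⋂₀ {A | IsCompleteSubalgebra A ∧ C ⊆ A}, ⟨?_, C, hC, ?_, ?_⟩, ?_⟩
  · exact isCompleteSubalgebra_sInter _ (fun A hA => hA.1)
  · intro _ hx A hA
    exact hA.2 hx
  · intro A' hA' hCA' x hx
    exact hx A' ⟨hA', hCA'⟩
  · intro _ hx A hA
    exact hA.2 hx

/-! ### Measures on complete subalgebras -/

namespace IsMeasureOn

variable {A : Set B} {μ : B → ℝ} (hA : IsCompleteSubalgebra A) (hμ : IsMeasureOn A μ)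
include hA hμ

theorem bot : μ ⊥ = 0 := by
  have h := hμ.countably_additive (fun _ => ⊥) (fun _ => hA.bot_mem) (fun i j _ => disjoint_bot_left)
  have h2 : Filter.Tendsto (fun _ : ℕ => μ (⊥ : B)) Filter.atTop (nhds 0) := h.summable.tendsto_atTop_zero
  exact tendsto_nhds_unique tendsto_const_nhds h2

theorem add {a b : B} (ha : a ∈ A) (hb : b ∈ A) (hab : Disjoint a b) :
    μ (a ⊔ b) = μ a + μ b := by
  classical
  have h := hμ.countably_additive (fun n => if n = 0 then a else if n = 1 then b else ⊥) ?_ ?_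
  · have h1 : (⨆ n : ℕ, (if n = 0 then a else if n = 1 then b else ⊥)) = a ⊔ b := by
      apply le_antisymm
      · apply iSup_le
        intro n
        split_ifs
        · exact le_sup_left
        · exact le_sup_right
        · exact bot_le
      · apply sup_le
        · exact le_iSup_of_le 0 (by simp)
        · exact le_iSup_of_le 1 (by simp)
    rw [h1] at h
    have h2 : HasSum (fun n : ℕ => μ (if n = 0 then a else if n = 1 then b else ⊥)) _ :=
      hasSum_sum_of_ne_finset_zero (s := Finset.range 2) (by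
        intro n hn
        have hn' : 1 < n := by simpa using hn
        have h0 : n ≠ 0 := by omega
        have h1 : n ≠ 1 := by omega
        simp only [h0, h1, if_false]
        exact hμ.bot hA)
    have h3 := h.unique (h2 : HasSum _ _)
    rw [h3, Finset.sum_range_succ, Finset.sum_range_one]
    simp
  · intro n
    split_ifs
    · exact ha
    · exact hb
    · exact hA.bot_mem
  · intro i j hij
    split_ifs with h1 h2 h3 h4 h5 h6
    · exact absurd (h1.trans h2.symm) hij
    · exact hab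
    · exact disjoint_bot_right
    · exact hab.symm
    · exact absurd (h4.trans h6.symm) hij
    · exact disjoint_bot_right
    · exact disjoint_bot_left
    · exact disjoint_bot_left
    · exact disjoint_bot_left

theorem mono {a b : B} (ha : a ∈ A) (hb : b ∈ A) (hab : a ≤ b) : μ a ≤ μ b := by
  have h := hμ.add hA ha (hA.sdiff_mem hb ha) disjoint_sdiff_self_right
  rw [sup_sdiff_cancel_right hab] at h
  have := hμ.nonneg _ (hA.sdiff_mem hb ha)
  linarith

/-- countable subadditivity -/
theorem iSup_le {a : ℕ → B} (ha : ∀ n, a n ∈ A) (hs : Summable (fun n => μ (a n))) :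
    μ (⨆ n, a n) ≤ ∑' n, μ (a n) := by
  have hmem : ∀ n, disjointed a n ∈ A := by
    intro n
    refine disjointedRec (p := fun x => x ∈ A) ?_ (ha n)
    intro t i ht
    exact hA.sdiff_mem ht (ha i)
  have h := hμ.countably_additive (disjointed a) hmem (disjoint_disjointed a)
  rw [iSup_disjointed] at h
  rw [← h.tsum_eq]
  exact h.summable.tsum_le_tsum (fun n => hμ.mono hA (hmem n) (ha n) (disjointed_le a n)) hs

end IsMeasureOn

/-- A continuous outer measure is absolutely continuous with respect to any measure on a complete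
subalgebra. -/
theorem abs_cont {m : B → ℝ} (hm : IsContinuousOuterMeasure m) {A : Set B}
    (hA : IsCompleteSubalgebra A) {μ : B → ℝ} (hμ : IsMeasureOn A μ) {ε : ℝ} (hε : 0 < ε) :
    ∃ δ > 0, ∀ a ∈ A, ε ≤ m a → δ ≤ μ a := by
  by_contra hcon
  push Not at hcon
  have h1 : ∀ n : ℕ, ∃ a ∈ A, ε ≤ m a ∧ μ a < (1 / 2) ^ n := by
    intro n
    exact hcon ((1 / 2) ^ n) (by positivity)
  choose a haA ham haμ using h1
  set b : ℕ → B := fun n => ⨆ k, a (n + k) with hb
  have hbA : ∀ n, b n ∈ A := fun n => hA.iSup_mem (fun k => haA _)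
  have hanti : Antitone b := by
    intro i j hij
    apply iSup_le
    intro k
    obtain ⟨l, rfl⟩ := Nat.exists_eq_add_of_le hij
    exact le_iSup_of_le (l + k) (by rw [add_assoc])
  have hbμ : ∀ n, μ (b n) ≤ (1 / 2) ^ n * 2 := by
    intro n
    have hgeo : HasSum (fun k : ℕ => (1 / 2 : ℝ) ^ (n + k)) ((1 / 2) ^ n * 2) := by
      have := hasSum_geometric_two.mul_left ((1 / 2 : ℝ) ^ n)
      simpa [pow_add] using this
    have hs : Summable (fun k => μ (a (n + k))) :=
      Summable.of_nonneg_of_le (fun k => hμ.nonneg _ (haA _)) (fun k => (haμ _).le) hgeo.summable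
    refine (hμ.iSup_le hA (fun k => haA _) hs).trans ?_
    rw [← hgeo.tsum_eq]
    exact hs.tsum_le_tsum (fun k => (haμ _).le) hgeo.summable
  have hc : (⨅ n, b n) = ⊥ := by
    by_contra hne
    have hpos := hμ.pos _ (hA.iInf_mem hbA) hne
    have hle : ∀ n, μ (⨅ n, b n) ≤ (1 / 2) ^ n * 2 := fun n =>
      (hμ.mono hA (hA.iInf_mem hbA) (hbA n) (iInf_le _ n)).trans (hbμ n)
    have hlim : Filter.Tendsto (fun n : ℕ => (1 / 2 : ℝ) ^ n * 2) Filter.atTop (nhds 0) := by
      have := (tendsto_pow_atTop_nhds_zero_of_lt_one (r := (1 / 2 : ℝ)) (by norm_num)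
        (by norm_num)).mul_const 2
      simpa using this
    have := ge_of_tendsto' hlim hle
    linarith
  have hlim := hm.continuous b hanti hc
  have : ε ≤ 0 := by
    refine ge_of_tendsto' hlim (fun n => ?_)
    refine (ham n).trans (hm.mono _ _ ?_)
    exact le_iSup_of_le 0 (by simp)
  linarith

/-! ### Finitely additive functions -/

/-- Finitely additive nonnegative functions. -/
structure IsFA (ν : B → ℝ) : Prop where
  nonneg : ∀ a, 0 ≤ ν a
  add : ∀ a b, Disjoint a b → ν (a ⊔ b) = ν a + ν b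

theorem IsFA.bot {ν : B → ℝ} (h : IsFA ν) : ν ⊥ = 0 := by
  have := h.add ⊥ ⊥ disjoint_bot_left
  rw [sup_idem] at this
  linarith

theorem IsFA.mono {ν : B → ℝ} (h : IsFA ν) {a b : B} (hab : a ≤ b) : ν a ≤ ν b := by
  have h1 := h.add a (b \ a) disjoint_sdiff_self_right
  rw [sup_sdiff_cancel_right hab] at h1
  have := h.nonneg (b \ a)
  linarith

theorem exists_two_valued {b : B} (hb : b ≠ ⊥) :
    ∃ ν : B → ℝ, IsFA ν ∧ ν ⊤ = 1 ∧ ν bᶜ = 0 := by
  classical
  obtain ⟨J, hJ, hIJ, hdisj⟩ := DistribLattice.prime_ideal_of_disjoint_filter_ideal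
    (F := Order.PFilter.principal b) (I := Order.Ideal.principal (⊥ : B)) (by
      rw [Set.disjoint_left]
      intro x hx hx'
      simp only [SetLike.mem_coe, Order.PFilter.mem_principal] at hx
      simp only [SetLike.mem_coe, Order.Ideal.mem_principal, le_bot_iff] at hx'
      subst hx'
      exact hb (le_bot_iff.mp hx))
  have hbJ : b ∉ J := by
    intro h
    exact Set.disjoint_left.mp hdisj (by simp) h
  have hbcJ : bᶜ ∈ J := hJ.compl_mem_of_notMem hbJ
  have htop : (⊤ : B) ∉ J := fun h => hbJ (J.lower le_top h)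
  refine ⟨fun x => if x ∈ J then 0 else 1, ⟨?_, ?_⟩, ?_, ?_⟩
  · intro a
    split_ifs <;> norm_num
  · intro x y hxy
    have hxy' : x ∈ J ∨ y ∈ J := by
      apply hJ.mem_or_mem
      rw [hxy.eq_bot]
      exact J.bot_mem
    by_cases hx : x ∈ J
    · by_cases hy : y ∈ J
      · have : x ⊔ y ∈ J := Order.Ideal.sup_mem hx hy
        simp [hx, hy, this]
      · have : x ⊔ y ∉ J := fun h => hy (J.lower le_sup_right h)
        simp [hx, hy, this]
    · have hy : y ∈ J := hxy'.resolve_left hx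
      have : x ⊔ y ∉ J := fun h => hx (J.lower le_sup_left h)
      simp [hx, hy, this]
  · simp [htop]
  · simp [hbcJ]

/-- Finite pieces of a measure on a subalgebra extend to finitely additive functions on `B`. -/
theorem exists_ext {A : Set B} (hA : IsCompleteSubalgebra A) {μ : B → ℝ} (hμ : IsMeasureOn A μ)
    (F : Finset B) : (∀ a ∈ F, a ∈ A) → ∀ b ∈ A,
    ∃ ν : B → ℝ, IsFA ν ∧ ν ⊤ = μ b ∧ ν bᶜ = 0 ∧ ∀ a ∈ F, ν a = μ (a ⊓ b) := by
  classical
  induction F using Finset.induction_on with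
  | empty =>
    intro _ b hb
    by_cases hb0 : b = ⊥
    · refine ⟨fun _ => 0, ⟨fun _ => le_rfl, fun _ _ _ => by simp⟩, ?_, rfl, by simp⟩
      rw [hb0, hμ.bot hA]
    · obtain ⟨ν, hν, h1, h2⟩ := exists_two_valued hb0
      refine ⟨fun x => μ b * ν x, ⟨fun x => mul_nonneg (hμ.nonneg b hb) (hν.nonneg x), ?_⟩,
        ?_, ?_, by simp⟩
      · intro x y hxy
        rw [hν.add x y hxy]
        ring
      · simp [h1]
      · simp [h2]
  | insert c F hcF ih =>
    intro hF b hb
    have hcA : c ∈ A := hF c (Finset.mem_insert_self c F)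
    have hF' : ∀ a ∈ F, a ∈ A := fun a ha => hF a (Finset.mem_insert_of_mem ha)
    have hb1 : b ⊓ c ∈ A := hA.inf_mem hb hcA
    have hb2 : b \ c ∈ A := hA.sdiff_mem hb hcA
    obtain ⟨ν₁, h1, h1t, h1c, h1F⟩ := ih hF' _ hb1
    obtain ⟨ν₂, h2, h2t, h2c, h2F⟩ := ih hF' _ hb2
    have hdisj : Disjoint (b ⊓ c) (b \ c) := disjoint_inf_sdiff
    have hzero1 : ∀ x, Disjoint x (b ⊓ c) → ν₁ x = 0 := by
      intro x hx
      apply le_antisymm _ (h1.nonneg x)
      rw [← h1c]
      exact h1.mono (le_compl_iff_disjoint_right.mpr hx)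
    have hzero2 : ∀ x, Disjoint x (b \ c) → ν₂ x = 0 := by
      intro x hx
      apply le_antisymm _ (h2.nonneg x)
      rw [← h2c]
      exact h2.mono (le_compl_iff_disjoint_right.mpr hx)
    refine ⟨fun x => ν₁ x + ν₂ x, ⟨fun x => add_nonneg (h1.nonneg x) (h2.nonneg x), ?_⟩,
      ?_, ?_, ?_⟩
    · intro x y hxy
      rw [h1.add x y hxy, h2.add x y hxy]
      ring
    · change ν₁ ⊤ + ν₂ ⊤ = μ b
      rw [h1t, h2t, ← hμ.add hA hb1 hb2 hdisj, sup_inf_sdiff]
    · change ν₁ bᶜ + ν₂ bᶜ = 0
      rw [hzero1, hzero2, add_zero]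
      · exact disjoint_compl_left.mono_right sdiff_le
      · exact disjoint_compl_left.mono_right inf_le_left
    · intro a ha
      change ν₁ a + ν₂ a = μ (a ⊓ b)
      rcases Finset.mem_insert.mp ha with rfl | ha
      · have e1 : ν₁ a = μ (b ⊓ a) := by
          have h3 := h1.add a aᶜ disjoint_compl_right
          rw [sup_compl_eq_top, h1t] at h3
          have h4 : ν₁ aᶜ = 0 := hzero1 _ (disjoint_compl_left.mono_right inf_le_right)
          rw [h4, add_zero] at h3
          exact h3.symm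
        have e2 : ν₂ a = 0 := hzero2 _ disjoint_sdiff_self_right
        rw [e1, e2, add_zero, inf_comm]
      · rw [h1F a ha, h2F a ha, ← hμ.add hA (hA.inf_mem (hF' a ha) hb1)
          (hA.inf_mem (hF' a ha) hb2)
          (hdisj.mono inf_le_right inf_le_right), ← inf_sup_left, sup_inf_sdiff]

/-- Compactness of the set of finitely additive probabilities. -/
theorem exists_of_finite (S : Set B) (δ : ℝ)
    (h : ∀ F : Finset B, (∀ a ∈ F, a ∈ S) → ∃ ν : B → ℝ, IsFA ν ∧ ν ⊤ = 1 ∧ ∀ a ∈ F, δ ≤ ν a) :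
    ∃ ν : B → ℝ, IsFA ν ∧ ν ⊤ = 1 ∧ ∀ a ∈ S, δ ≤ ν a := by
  classical
  set K : Set (B → ℝ) := {ν | IsFA ν ∧ ν ⊤ = 1} with hK
  have hKc : IsCompact K := by
    have hsub : K ⊆ Set.pi Set.univ (fun _ : B => Set.Icc (0 : ℝ) 1) := by
      rintro ν ⟨h1, h2⟩ a _
      exact ⟨h1.nonneg a, h2 ▸ h1.mono le_top⟩
    refine (isCompact_univ_pi (fun _ => isCompact_Icc)).of_isClosed_subset ?_ hsub
    have : K = (⋂ a : B, {ν : B → ℝ | 0 ≤ ν a}) ∩
        (⋂ a : B, ⋂ b : B, ⋂ _ : Disjoint a b, {ν : B → ℝ | ν (a ⊔ b) = ν a + ν b}) ∩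
        {ν : B → ℝ | ν ⊤ = 1} := by
      ext ν
      simp only [hK, Set.mem_ofPred_eq, mem_inter_iff, mem_iInter]
      constructor
      · rintro ⟨h1, h2⟩
        exact ⟨⟨h1.nonneg, h1.add⟩, h2⟩
      · rintro ⟨⟨h1, h2⟩, h3⟩
        exact ⟨⟨h1, h2⟩, h3⟩
    rw [this]
    refine IsClosed.inter (IsClosed.inter ?_ ?_) ?_
    · exact isClosed_iInter fun a => isClosed_le continuous_const (continuous_apply a)
    · exact isClosed_iInter fun a => isClosed_iInter fun b => isClosed_iInter fun _ =>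
        isClosed_eq (continuous_apply _) ((continuous_apply a).add (continuous_apply b))
    · exact isClosed_eq (continuous_apply _) continuous_const
  have hne : (K ∩ ⋂ a : S, {ν : B → ℝ | δ ≤ ν a}).Nonempty := by
    refine hKc.inter_iInter_nonempty _
      (fun a => isClosed_le continuous_const (continuous_apply (a : B))) ?_
    intro u
    obtain ⟨ν, h1, h2, h3⟩ := h (u.image (fun a : S => (a : B))) (by
      intro a ha
      obtain ⟨b, _, rfl⟩ := Finset.mem_image.mp ha
      exact b.2)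
    refine ⟨ν, ⟨h1, h2⟩, ?_⟩
    simp only [mem_iInter, Set.mem_ofPred_eq]
    intro a ha
    exact h3 a (Finset.mem_image_of_mem _ ha)
  obtain ⟨ν, ⟨h1, h2⟩, h3⟩ := hne
  refine ⟨ν, h1, h2, fun a ha => ?_⟩
  simp only [mem_iInter, Set.mem_ofPred_eq] at h3
  exact h3 ⟨a, ha⟩

/-- The key step: uniform lower bounds on the sets `{a | ε ≤ m a}`. -/
theorem exists_fa [Nontrivial B] (hsub : ∀ A : Set B, IsCountablyGenerated A → ∃ μ : B → ℝ, IsMeasureOn A μ)
    {m : B → ℝ} (hm : IsContinuousOuterMeasure m) {ε : ℝ} (hε : 0 < ε) :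
    ∃ δ > 0, ∃ ν : B → ℝ, IsFA ν ∧ ν ⊤ = 1 ∧ ∀ a, ε ≤ m a → δ ≤ ν a := by
  classical
  by_contra hcon
  push Not at hcon
  have h1 : ∀ n : ℕ, ∃ F : Finset B, (∀ a ∈ F, ε ≤ m a) ∧
      ∀ ν : B → ℝ, IsFA ν → ν ⊤ = 1 → ∃ a ∈ F, ν a < 1 / (n + 1) := by
    intro n
    by_contra hn
    push Not at hn
    obtain ⟨ν, hν1, hν2, hν3⟩ := exists_of_finite {a : B | ε ≤ m a} (1 / ((n : ℝ) + 1))
      (fun F hF => hn F hF)
    obtain ⟨a, ha, ha'⟩ := hcon (1 / ((n : ℝ) + 1)) (by positivity) ν hν1 hν2
    exact absurd (hν3 a ha) (not_le.mpr ha')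
  choose F hF hFν using h1
  obtain ⟨A, hAcg, hCA⟩ := exists_generated (⋃ n, (F n : Set B))
    (countable_iUnion fun n => (F n).countable_toSet)
  have hA := hAcg.1
  obtain ⟨μ, hμ⟩ := hsub A hAcg
  obtain ⟨δ, hδ, hδA⟩ := abs_cont hm hA hμ hε
  have htop : 0 < μ ⊤ := hμ.pos _ hA.top_mem top_ne_bot
  obtain ⟨n, hn⟩ := exists_nat_one_div_lt (div_pos hδ htop)
  have hFA : ∀ a ∈ F n, a ∈ A := fun a ha => hCA (mem_iUnion.mpr ⟨n, ha⟩)
  obtain ⟨ν, hν, hνt, -, hνF⟩ := exists_ext hA hμ (F n) hFA ⊤ hA.top_mem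
  obtain ⟨a, ha, haν⟩ := hFν n (fun x => ν x / μ ⊤)
    ⟨fun x => div_nonneg (hν.nonneg x) htop.le, fun x y hxy => by
      rw [hν.add x y hxy, add_div]⟩ (by
      rw [hνt, div_self htop.ne'])
  rw [hνF a ha, inf_top_eq] at haν
  have h2 : δ / μ ⊤ ≤ μ a / μ ⊤ :=
    div_le_div_of_nonneg_right (hδA a (hFA a ha) (hF n a ha)) htop.le
  linarith


/-! ### The countably additive part -/

open scoped ENNReal

/-- Finitely additive functions with extended nonnegative values. -/
structure IsFAE (N : B → ℝ≥0∞) : Prop where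
  bot : N ⊥ = 0
  add : ∀ a b, Disjoint a b → N (a ⊔ b) = N a + N b

theorem IsFAE.mono {N : B → ℝ≥0∞} (h : IsFAE N) {a b : B} (hab : a ≤ b) : N a ≤ N b := by
  have h1 := h.add a (b \ a) disjoint_sdiff_self_right
  rw [sup_sdiff_cancel_right hab] at h1
  rw [h1]
  exact le_self_add

theorem IsFAE.sum {N : B → ℝ≥0∞} (h : IsFAE N) (c : ℕ → B)
    (hc : Pairwise (fun i j => Disjoint (c i) (c j))) (n : ℕ) :
    ∑ i ∈ Finset.range n, N (c i) = N ((Finset.range n).sup c) := by
  induction n with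
  | zero => simp [h.bot]
  | succ n ih =>
    rw [Finset.sum_range_succ, ih, ← h.add, Finset.range_add_one, Finset.sup_insert, sup_comm]
    rw [Finset.disjoint_sup_left]
    intro i hi
    exact hc (by
      have : i < n := by simpa using hi
      omega)

theorem IsFAE.tsum_le {N : B → ℝ≥0∞} (h : IsFAE N) (c : ℕ → B)
    (hc : Pairwise (fun i j => Disjoint (c i) (c j))) {a : B} (ha : ∀ i, c i ≤ a) :
    ∑' i, N (c i) ≤ N a := by
  refine ENNReal.tsum_le_of_sum_range_le (fun n => ?_)
  rw [h.sum c hc n]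
  exact h.mono (Finset.sup_le (fun i _ => ha i))

/-- Countable partitions of `a`. -/
def IsPart (a : B) (c : ℕ → B) : Prop :=
  Pairwise (fun i j => Disjoint (c i) (c j)) ∧ (⨆ i, c i) = a

/-- The countably additive part of `N`. -/
noncomputable def cap (N : B → ℝ≥0∞) (a : B) : ℝ≥0∞ :=
  ⨅ (c : ℕ → B) (_ : IsPart a c), ∑' i, N (c i)

theorem cap_le {N : B → ℝ≥0∞} (h : IsFAE N) (a : B) : cap N a ≤ N a := by
  classical
  have hp : IsPart a (fun n => if n = 0 then a else ⊥) := by
    constructor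
    · intro i j hij
      change Disjoint (if i = 0 then a else ⊥) (if j = 0 then a else ⊥)
      split_ifs with h1 h2
      · exact absurd (h1.trans h2.symm) hij
      · exact disjoint_bot_right
      · exact disjoint_bot_left
      · exact disjoint_bot_left
    · apply le_antisymm
      · apply iSup_le
        intro n
        change (if n = 0 then a else ⊥) ≤ a
        split_ifs
        · exact le_rfl
        · exact bot_le
      · exact le_iSup_of_le 0 (by simp)
  refine (iInf₂_le _ hp).trans ?_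
  rw [tsum_eq_single 0]
  · simp
  · intro n hn
    simp [hn, h.bot]

theorem cap_iSup {N : B → ℝ≥0∞} (h : IsFAE N) (a : ℕ → B)
    (ha : Pairwise (fun i j => Disjoint (a i) (a j))) :
    cap N (⨆ n, a n) = ∑' n, cap N (a n) := by
  classical
  apply le_antisymm
  · refine ENNReal.le_of_forall_pos_le_add ?_
    intro ε hε hfin
    obtain ⟨δ, hδ, hδsum⟩ := ENNReal.exists_pos_sum_of_countable
      (ε := (ε : ℝ≥0∞)) (by exact_mod_cast hε.ne') ℕ
    have hne : ∀ n, cap N (a n) ≠ ∞ := by
      intro n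
      exact ((ENNReal.le_tsum n).trans_lt hfin).ne
    have h1 : ∀ n, ∃ c : ℕ → B, IsPart (a n) c ∧ ∑' i, N (c i) < cap N (a n) + δ n := by
      intro n
      have : cap N (a n) < cap N (a n) + δ n :=
        ENNReal.lt_add_right (hne n) (by exact_mod_cast (hδ n).ne')
      obtain ⟨c, hc⟩ := iInf_lt_iff.mp this
      obtain ⟨hc1, hc2⟩ := iInf_lt_iff.mp hc
      exact ⟨c, hc1, hc2⟩
    choose c hcp hc using h1
    have hcle : ∀ n i, c n i ≤ a n := by
      intro n i
      have := le_iSup (fun i => c n i) i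
      rwa [(hcp n).2] at this
    have hpart : IsPart (⨆ n, a n) (fun k => c (Nat.unpair k).1 (Nat.unpair k).2) := by
      constructor
      · intro i j hij
        change Disjoint (c (Nat.unpair i).1 (Nat.unpair i).2) (c (Nat.unpair j).1 (Nat.unpair j).2)
        by_cases h1 : (Nat.unpair i).1 = (Nat.unpair j).1
        · rw [h1]
          apply (hcp (Nat.unpair j).1).1
          intro h2
          apply hij
          rw [← Nat.pair_unpair i, ← Nat.pair_unpair j, h1, h2]
        · exact (ha h1).mono (hcle _ _) (hcle _ _)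
      · apply le_antisymm
        · exact iSup_le (fun k => (hcle _ _).trans (le_iSup a _))
        · apply iSup_le
          intro n
          rw [← (hcp n).2]
          apply iSup_le
          intro i
          have hk := le_iSup (fun k => c (Nat.unpair k).1 (Nat.unpair k).2) (Nat.pair n i)
          simp only [Nat.unpair_pair] at hk
          exact hk
    refine (iInf₂_le _ hpart).trans ?_
    have hcomb : ∑' k : ℕ, N (c (Nat.unpair k).1 (Nat.unpair k).2) =
        ∑' n, ∑' i, N (c n i) := by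
      rw [← ENNReal.tsum_prod (f := fun n i => N (c n i))]
      rw [← Nat.pairEquiv.symm.tsum_eq (fun p : ℕ × ℕ => N (c p.1 p.2))]
      rfl
    rw [hcomb]
    calc ∑' n, ∑' i, N (c n i) ≤ ∑' n, (cap N (a n) + δ n) :=
          ENNReal.tsum_le_tsum (fun n => (hc n).le)
      _ = ∑' n, cap N (a n) + ∑' n, (δ n : ℝ≥0∞) := ENNReal.tsum_add
      _ ≤ ∑' n, cap N (a n) + ε := by gcongr
  · refine le_iInf₂ ?_
    intro c hcp
    have hcle : ∀ j, c j ≤ ⨆ n, a n := by
      intro j
      have := le_iSup (fun i => c i) j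
      rwa [hcp.2] at this
    calc ∑' n, cap N (a n) ≤ ∑' n, ∑' j, N (c j ⊓ a n) := by
          refine ENNReal.tsum_le_tsum (fun n => ?_)
          have hp : IsPart (a n) (fun j => c j ⊓ a n) := by
            constructor
            · intro i j hij
              exact (hcp.1 hij).mono inf_le_left inf_le_left
            · rw [← iSup_inf_eq, hcp.2]
              exact inf_eq_right.mpr (le_iSup a n)
          exact iInf₂_le (f := fun (c : ℕ → B) (_ : IsPart (a n) c) => ∑' i, N (c i)) _ hp
      _ = ∑' j, ∑' n, N (c j ⊓ a n) := ENNReal.tsum_comm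
      _ ≤ ∑' j, N (c j) := by
          refine ENNReal.tsum_le_tsum (fun j => ?_)
          refine h.tsum_le _ ?_ (fun n => inf_le_left)
          intro i k hik
          exact (ha hik).mono inf_le_right inf_le_right

/-- countable subadditivity of a continuous outer measure -/
theorem outer_iSup_le {m : B → ℝ} (hm : IsContinuousOuterMeasure m) (x : ℕ → B) (s : ℝ)
    (hs : ∀ n, ∑ i ∈ Finset.range n, m (x i) ≤ s) : m (⨆ n, x n) ≤ s := by
  have hfin : ∀ n, m ((Finset.range n).sup x) ≤ ∑ i ∈ Finset.range n, m (x i) := by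
    intro n
    induction n with
    | zero => simp [hm.bot]
    | succ n ih =>
      rw [Finset.sum_range_succ, Finset.range_add_one, Finset.sup_insert, sup_comm]
      refine (hm.subadd _ _).trans ?_
      linarith
  have hanti : Antitone (fun n => (⨆ n, x n) \ (Finset.range n).sup x) := by
    intro i j hij
    exact sdiff_le_sdiff_left (Finset.sup_mono (Finset.range_mono hij))
  have hinf : (⨅ n, (⨆ n, x n) \ (Finset.range n).sup x) = ⊥ := by
    rw [← le_bot_iff]
    have h1 : (⨅ n, (⨆ n, x n) \ (Finset.range n).sup x) ≤ (⨆ n, x n) :=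
      (iInf_le _ 0).trans sdiff_le
    have h2 : Disjoint (⨅ n, (⨆ n, x n) \ (Finset.range n).sup x) (⨆ n, x n) := by
      rw [disjoint_iSup_iff]
      intro i
      refine Disjoint.mono_left (iInf_le _ (i + 1)) ?_
      refine disjoint_sdiff_self_left.mono_right ?_
      exact Finset.le_sup (f := x) (by simp)
    exact (h2.mono_right h1).eq_bot_of_self.le
  have hlim := hm.continuous _ hanti hinf
  have h3 : ∀ n, m (⨆ n, x n) ≤ s + m ((⨆ n, x n) \ (Finset.range n).sup x) := by
    intro n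
    have h4 : (⨆ n, x n) ≤ (Finset.range n).sup x ⊔ ((⨆ n, x n) \ (Finset.range n).sup x) := by
      rw [sup_sdiff_self_right]
      exact le_sup_right
    have h5 := (hm.mono _ _ h4).trans (hm.subadd _ _)
    have h6 := (hfin n).trans (hs n)
    linarith
  have h7 : Filter.Tendsto (fun n => s + m ((⨆ n, x n) \ (Finset.range n).sup x)) Filter.atTop
      (nhds s) := by
    have := hlim.const_add s
    rwa [add_zero] at this
  exact ge_of_tendsto' h7 h3

/-- Strict positivity of the countably additive part. -/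
theorem cap_pos {m : B → ℝ} (hm : IsContinuousOuterMeasure m) {N : B → ℝ≥0∞} (h : IsFAE N)
    (hpos : ∀ a, a ≠ ⊥ → N a ≠ 0) {a : B} (ha : a ≠ ⊥) : cap N a ≠ 0 := by
  classical
  intro hzero
  have h1 : ∀ k : ℕ, ∃ c : ℕ → B, IsPart a c ∧ ∑' i, N (c i) < (1 / 2) ^ k := by
    intro k
    have : cap N a < (1 / 2) ^ k := by
      rw [hzero]
      exact pos_iff_ne_zero.mpr (pow_ne_zero _ (by simp))
    obtain ⟨c, hc⟩ := iInf_lt_iff.mp this
    obtain ⟨hc1, hc2⟩ := iInf_lt_iff.mp hc
    exact ⟨c, hc1, hc2⟩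
  choose c hcp hc using h1
  have hma : 0 < m a := hm.pos a ha
  have h2 : ∀ k : ℕ, ∃ n : ℕ, m (a \ (Finset.range n).sup (c k)) < m a / 2 * (1 / 2) ^ (k + 1) := by
    intro k
    have hanti : Antitone (fun n => a \ (Finset.range n).sup (c k)) := by
      intro i j hij
      exact sdiff_le_sdiff_left (Finset.sup_mono (Finset.range_mono hij))
    have hinf : (⨅ n, a \ (Finset.range n).sup (c k)) = ⊥ := by
      rw [← le_bot_iff]
      have h1 : (⨅ n, a \ (Finset.range n).sup (c k)) ≤ a := (iInf_le _ 0).trans sdiff_le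
      have h2 : Disjoint (⨅ n, a \ (Finset.range n).sup (c k)) a := by
        rw [← (hcp k).2, disjoint_iSup_iff]
        intro i
        refine Disjoint.mono_left (iInf_le _ (i + 1)) ?_
        refine disjoint_sdiff_self_left.mono_right ?_
        exact Finset.le_sup (f := c k) (by simp)
      exact (h2.mono_right h1).eq_bot_of_self.le
    have hlim := hm.continuous _ hanti hinf
    have hev := hlim.eventually (gt_mem_nhds (show (0 : ℝ) < m a / 2 * (1 / 2) ^ (k + 1) by
      positivity))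
    exact hev.exists
  choose n hn using h2
  set d : ℕ → B := fun k => (Finset.range (n k)).sup (c k) with hd
  have hNd : ∀ k, N (d k) ≤ (1 / 2) ^ k := by
    intro k
    rw [hd, ← h.sum (c k) (hcp k).1 (n k)]
    exact (ENNReal.sum_le_tsum _).trans (hc k).le
  set b : B := ⨅ k, d k with hb
  have hNb : N b = 0 := by
    have h3 : ∀ k : ℕ, N b ≤ (1 / 2) ^ k := fun k => (h.mono (iInf_le _ k)).trans (hNd k)
    have h4 : Filter.Tendsto (fun k : ℕ => (1 / 2 : ℝ≥0∞) ^ k) Filter.atTop (nhds 0) :=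
      ENNReal.tendsto_pow_atTop_nhds_zero_of_lt_one (by simp)
    exact le_bot_iff.mp (ge_of_tendsto' h4 h3)
  have hb0 : b = ⊥ := by
    by_contra hne
    exact hpos b hne hNb
  have h5 : (⨆ k, a \ d k) = a := by
    apply le_antisymm
    · exact iSup_le (fun k => sdiff_le)
    · have h7 : a = a \ b := by rw [hb0, sdiff_bot]
      have h8 : a \ b = ⨆ k, a \ d k := by
        rw [hb, _root_.sdiff_eq, compl_iInf, inf_iSup_eq]
        simp only [_root_.sdiff_eq]
      exact (h7.trans h8).le
  have h6 := outer_iSup_le hm (fun k => a \ d k) (m a / 2) (by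
    intro k
    have hgeo : HasSum (fun k : ℕ => m a / 2 * (1 / 2 : ℝ) ^ (k + 1)) (m a / 2) := by
      have h9 := hasSum_geometric_two.mul_left (m a / 4)
      have e1 : m a / 4 * 2 = m a / 2 := by ring
      rw [e1] at h9
      have e2 : (fun k : ℕ => m a / 2 * (1 / 2 : ℝ) ^ (k + 1)) =
          fun k : ℕ => m a / 4 * (1 / 2 : ℝ) ^ k := by
        funext k
        ring
      rw [e2]
      exact h9
    refine (Finset.sum_le_sum (fun i _ => (hn i).le)).trans ?_
    exact sum_le_hasSum _ (fun i _ => by positivity) hgeo)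
  rw [h5] at h6
  linarith

/-- Let `B` be a ccc complete Boolean algebra such that every countably generated complete
subalgebra of `B` admits a measure, and suppose that `B` admits a continuous outer measure. Then
`B` admits a measure. -/
theorem result (B : Type u) [CompleteBooleanAlgebra B]
    (_hccc : ∀ S : Set B, (∀ a ∈ S, a ≠ ⊥) → (∀ a ∈ S, ∀ b ∈ S, a ≠ b → Disjoint a b) →
      S.Countable)
    (hsub : ∀ A : Set B, IsCountablyGenerated A → ∃ μ : B → ℝ, IsMeasureOn A μ)
    (hm : ∃ m : B → ℝ, IsContinuousOuterMeasure m) :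
    ∃ μ : B → ℝ, IsMeasureOn Set.univ μ := by
  classical
  obtain ⟨m, hm⟩ := hm
  rcases subsingleton_or_nontrivial B with hB | hB
  · refine ⟨fun _ => 0, fun _ _ => le_rfl, ?_, ?_⟩
    · intro a _ ha
      exact absurd (Subsingleton.elim a ⊥) ha
    · intro a _ _
      exact hasSum_zero
  have h1 : ∀ n : ℕ, ∃ δ > 0, ∃ ν : B → ℝ, IsFA ν ∧ ν ⊤ = 1 ∧
      ∀ a, 1 / ((n : ℝ) + 1) ≤ m a → δ ≤ ν a := fun n => exists_fa hsub hm (by positivity)
  choose δ hδ ν hν hνt hνa using h1
  set N : B → ℝ≥0∞ := fun a => ∑' n, (1 / 2) ^ n * ENNReal.ofReal (ν n a) with hNdef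
  have hN : IsFAE N := by
    constructor
    · simp [hNdef, (hν _).bot]
    · intro a b hab
      simp only [hNdef]
      rw [← ENNReal.tsum_add]
      congr 1
      ext n
      rw [(hν n).add a b hab, ENNReal.ofReal_add ((hν n).nonneg a) ((hν n).nonneg b), mul_add]
  have hNtop : N ⊤ ≠ ∞ := by
    simp only [hNdef, hνt, ENNReal.ofReal_one, mul_one]
    rw [ENNReal.tsum_geometric]
    simp
  have hNpos : ∀ a, a ≠ ⊥ → N a ≠ 0 := by
    intro a ha
    obtain ⟨n, hn⟩ := exists_nat_one_div_lt (hm.pos a ha)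
    have h2 : 0 < ν n a := (hδ n).trans_le (hνa n a hn.le)
    intro h0
    rw [hNdef] at h0
    have h3 := ENNReal.tsum_eq_zero.mp h0 n
    rw [mul_eq_zero] at h3
    rcases h3 with h3 | h3
    · exact pow_ne_zero n (by simp) h3
    · rw [ENNReal.ofReal_eq_zero] at h3
      linarith
  have hfin : ∀ a, cap N a ≠ ∞ := fun a =>
    ne_top_of_le_ne_top hNtop ((cap_le hN a).trans (hN.mono le_top))
  refine ⟨fun a => (cap N a).toReal, fun a _ => ENNReal.toReal_nonneg, ?_, ?_⟩
  · intro a _ ha
    exact ENNReal.toReal_pos (cap_pos hm hN hNpos ha) (hfin a)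
  · intro a _ ha
    have h2 := cap_iSup hN a ha
    have h3 : ∑' n, cap N (a n) ≠ ∞ := by
      rw [← h2]
      exact hfin _
    have h4 := ENNReal.hasSum_toReal h3
    rw [← ENNReal.tsum_toReal_eq (fun n => hfin (a n)), ← h2] at h4
    exact h4

end Pool.Agent.Results.MP_2d6919_lc.MeasureFromSubalgebras
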